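import Mathlib
import Pool.Agent.Y854.GM.Win

/-! # Windows without exceptional integers, from exceptional sets of dyadic blocks -/

set_option autoImplicit false

open Finset Filter Topology MeasureTheory

namespace Pool.Agent.V11109.WIN

open scoped ENNReal NNReal

/-- counting from dyadic blocks -/
lemma count_dyadic {s : ℝ} (hs : 0 < s) (S : Set ℕ) (bad : ℕ → Finset ℕ) (N₀ : ℕ)
    (hbad : ∀ N : ℕ, N₀ ≤ N → ((bad N).card : ℝ) ≤ (N : ℝ) ^ s) (i₀ : ℕ)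
    (hS : ∀ i : ℕ, i₀ ≤ i → ∀ m ∈ S, 2 ^ i < m → m ≤ 2 ^ (i + 1) → m ∈ bad (2 ^ (i + 1))) :
    ∃ K : ℝ, 0 < K ∧ ∀ X : ℝ, 1 ≤ X → {m : ℕ | m ∈ S ∧ (m : ℝ) ≤ X}.Finite ∧
      (({m : ℕ | m ∈ S ∧ (m : ℝ) ≤ X}.ncard : ℕ) : ℝ) ≤ K * X ^ s := by
  classical
  -- start of the induction
  obtain ⟨i₁, hi₁⟩ : ∃ i₁ : ℕ, i₀ ≤ i₁ ∧ N₀ ≤ 2 ^ (i₁ + 1) :=
    ⟨max i₀ N₀, le_max_left _ _, by
      have h1 : N₀ < 2 ^ N₀ := Nat.lt_two_pow_self
      have h2 : 2 ^ N₀ ≤ 2 ^ (max i₀ N₀ + 1) := Nat.pow_le_pow_right (by norm_num) (by omega)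
      omega⟩
  have hfin : ∀ X : ℝ, {m : ℕ | m ∈ S ∧ (m : ℝ) ≤ X}.Finite := fun X =>
    (Set.finite_Iic ⌊X⌋₊).subset fun m hm => Nat.le_floor hm.2
  have h2s : (1 : ℝ) < 2 ^ s := Real.one_lt_rpow (by norm_num) hs
  set q : ℝ := 2 ^ s with hq
  set K : ℝ := max ((2 : ℝ) ^ i₁ + 1) (q / (q - 1)) with hK
  have hK1 : (2 : ℝ) ^ i₁ + 1 ≤ K := le_max_left _ _
  have hK0 : 0 < K := lt_of_lt_of_le (by positivity) hK1
  have hKq : q ≤ K * (q - 1) := by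
    have h1 : q / (q - 1) ≤ K := le_max_right _ _
    rwa [div_le_iff₀ (by linarith)] at h1
  have hq0 : 0 < q := by linarith
  have hpow : ∀ j : ℕ, ((2 : ℝ) ^ j) ^ s = q ^ j := by
    intro j
    rw [hq, ← Real.rpow_natCast, ← Real.rpow_natCast, ← Real.rpow_mul (by norm_num),
      ← Real.rpow_mul (by norm_num), mul_comm]
  have hind : ∀ j : ℕ, i₁ ≤ j →
      (({m : ℕ | m ∈ S ∧ (m : ℝ) ≤ 2 ^ j}.ncard : ℕ) : ℝ) ≤ K * q ^ j := by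
    intro j hj
    induction j, hj using Nat.le_induction with
    | base =>
      have h1 : {m : ℕ | m ∈ S ∧ (m : ℝ) ≤ 2 ^ i₁}.ncard ≤ 2 ^ i₁ + 1 := by
        have h2 : {m : ℕ | m ∈ S ∧ (m : ℝ) ≤ 2 ^ i₁} ⊆ ((range (2 ^ i₁ + 1) : Finset ℕ) : Set ℕ) := by
          rintro m ⟨-, hm⟩
          have : m ≤ 2 ^ i₁ := by exact_mod_cast hm
          simp only [coe_range, Set.mem_Iio]
          omega
        calc _ ≤ ((range (2 ^ i₁ + 1) : Finset ℕ) : Set ℕ).ncard :=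
              Set.ncard_le_ncard h2 (Finset.finite_toSet _)
          _ = 2 ^ i₁ + 1 := by rw [Set.ncard_coe_finset, card_range]
      have h3 : (({m : ℕ | m ∈ S ∧ (m : ℝ) ≤ 2 ^ i₁}.ncard : ℕ) : ℝ) ≤ 2 ^ i₁ + 1 := by
        exact_mod_cast h1
      have h4 : (1 : ℝ) ≤ q ^ i₁ := one_le_pow₀ h2s.le
      nlinarith
    | succ j hj ih =>
      have h1 : {m : ℕ | m ∈ S ∧ (m : ℝ) ≤ 2 ^ (j + 1)} ⊆
          {m : ℕ | m ∈ S ∧ (m : ℝ) ≤ 2 ^ j} ∪ ((bad (2 ^ (j + 1)) : Finset ℕ) : Set ℕ) := by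
        rintro m ⟨hm, hm2⟩
        rcases le_or_gt (m : ℝ) (2 ^ j) with h | h
        · exact Or.inl ⟨hm, h⟩
        · refine Or.inr (hS j (hi₁.1.trans hj) m hm ?_ ?_)
          · exact_mod_cast h
          · exact_mod_cast hm2
      have h2 : {m : ℕ | m ∈ S ∧ (m : ℝ) ≤ 2 ^ (j + 1)}.ncard ≤
          {m : ℕ | m ∈ S ∧ (m : ℝ) ≤ 2 ^ j}.ncard + (bad (2 ^ (j + 1))).card := by
        refine (Set.ncard_le_ncard h1 ((hfin _).union (Finset.finite_toSet _))).trans ?_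
        refine (Set.ncard_union_le _ _).trans ?_
        rw [Set.ncard_coe_finset]
      have h3 : ((bad (2 ^ (j + 1))).card : ℝ) ≤ q ^ (j + 1) := by
        have h4 := hbad (2 ^ (j + 1)) (hi₁.2.trans
          (Nat.pow_le_pow_right (by norm_num) (by omega)))
        rw [← hpow]
        exact_mod_cast h4
      have h5 : (({m : ℕ | m ∈ S ∧ (m : ℝ) ≤ 2 ^ (j + 1)}.ncard : ℕ) : ℝ) ≤
          K * q ^ j + q ^ (j + 1) := by
        calc _ ≤ ((({m : ℕ | m ∈ S ∧ (m : ℝ) ≤ 2 ^ j}.ncard + (bad (2 ^ (j + 1))).card : ℕ)) : ℝ) := by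
              exact_mod_cast h2
          _ ≤ K * q ^ j + q ^ (j + 1) := by
              push_cast
              exact add_le_add ih h3
      have h6 : 0 < q ^ j := pow_pos hq0 j
      calc _ ≤ K * q ^ j + q ^ (j + 1) := h5
        _ = (K + q) * q ^ j := by rw [pow_succ]; ring
        _ ≤ (K * q) * q ^ j := by
            refine mul_le_mul_of_nonneg_right ?_ h6.le
            linarith
        _ = K * q ^ (j + 1) := by rw [pow_succ]; ring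
  refine ⟨K * q, by positivity, fun X hX => ⟨hfin X, ?_⟩⟩
  have hX0 : 0 < X := by linarith
  rcases le_or_gt X (2 ^ i₁) with hXi | hXi
  · have h1 : {m : ℕ | m ∈ S ∧ (m : ℝ) ≤ X}.ncard ≤ 2 ^ i₁ + 1 := by
      have h2 : {m : ℕ | m ∈ S ∧ (m : ℝ) ≤ X} ⊆ ((range (2 ^ i₁ + 1) : Finset ℕ) : Set ℕ) := by
        rintro m ⟨-, hm⟩
        have : (m : ℝ) ≤ 2 ^ i₁ := hm.trans hXi
        have : m ≤ 2 ^ i₁ := by exact_mod_cast this
        simp only [coe_range, Set.mem_Iio]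
        omega
      calc _ ≤ ((range (2 ^ i₁ + 1) : Finset ℕ) : Set ℕ).ncard :=
            Set.ncard_le_ncard h2 (Finset.finite_toSet _)
        _ = 2 ^ i₁ + 1 := by rw [Set.ncard_coe_finset, card_range]
    have h3 : (({m : ℕ | m ∈ S ∧ (m : ℝ) ≤ X}.ncard : ℕ) : ℝ) ≤ 2 ^ i₁ + 1 := by exact_mod_cast h1
    have h4 : 1 ≤ X ^ s := Real.one_le_rpow hX hs.le
    have h5 : (2 : ℝ) ^ i₁ + 1 ≤ K * q := by nlinarith
    have h6 : 0 < K * q := by positivity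
    nlinarith
  · obtain ⟨j, hj1, hj2⟩ : ∃ j : ℕ, (2 : ℝ) ^ j < X ∧ X ≤ 2 ^ (j + 1) := by
      obtain ⟨n, hn1, hn2⟩ := exists_nat_pow_near (x := X) (y := 2) hX (by norm_num)
      rcases hn1.lt_or_eq with h | h
      · exact ⟨n, h, hn2.le⟩
      · rcases n with _ | n
        · exfalso
          rw [pow_zero] at h
          have : (1 : ℝ) ≤ 2 ^ i₁ := one_le_pow₀ (by norm_num)
          linarith
        · refine ⟨n, ?_, h.symm.le⟩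
          rw [← h, pow_succ]
          have : (0 : ℝ) < 2 ^ n := by positivity
          linarith
    have hij : i₁ ≤ j + 1 := by
      by_contra hcon
      push Not at hcon
      have h1 : (2 : ℝ) ^ (j + 1) ≤ 2 ^ i₁ := pow_le_pow_right₀ (by norm_num) hcon.le
      linarith
    have h1 : {m : ℕ | m ∈ S ∧ (m : ℝ) ≤ X}.ncard ≤
        {m : ℕ | m ∈ S ∧ (m : ℝ) ≤ 2 ^ (j + 1)}.ncard :=
      Set.ncard_le_ncard (fun m hm => ⟨hm.1, hm.2.trans hj2⟩) (hfin _)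
    have h2 : q ^ j ≤ X ^ s := by
      rw [← hpow]
      exact Real.rpow_le_rpow (by positivity) hj1.le hs.le
    calc (({m : ℕ | m ∈ S ∧ (m : ℝ) ≤ X}.ncard : ℕ) : ℝ)
        ≤ (({m : ℕ | m ∈ S ∧ (m : ℝ) ≤ 2 ^ (j + 1)}.ncard : ℕ) : ℝ) := by exact_mod_cast h1
      _ ≤ K * q ^ (j + 1) := hind _ hij
      _ = (K * q) * q ^ j := by rw [pow_succ]; ring
      _ ≤ (K * q) * X ^ s := mul_le_mul_of_nonneg_left h2 (by positivity)

/-- windows without exceptional integers -/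
theorem windows_of_bad {v : ℕ → ℝ} {s τ θ : ℝ} (hpos : ∀ n, 1 ≤ v n) (hτ : 0 ≤ τ)
    (hv : Pool.Agent.Y854.GM.ExpLe v τ) (hs : 0 < s) (hθ1 : θ < 1) (S : Set ℕ)
    (bad : ℕ → Finset ℕ) (N₀ : ℕ)
    (hbad : ∀ N : ℕ, N₀ ≤ N → ((bad N).card : ℝ) ≤ (N : ℝ) ^ s) (i₀ : ℕ)
    (hS : ∀ i : ℕ, i₀ ≤ i → ∀ m ∈ S, 2 ^ i < m → m ≤ 2 ^ (i + 1) → m ∈ bad (2 ^ (i + 1))) :
    ∃ E : Set ℝ, dimH E ≤ ENNReal.ofReal ((s + τ) / (1 - θ)) ∧ ∀ α : ℝ, 0 < α → α ∉ E →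
      ∃ n0 : ℕ, ∀ n : ℕ, n0 ≤ n → ∀ m ∈ S, (v n) ^ θ < |(m : ℝ) - α * v n| := by
  obtain ⟨K, hK, hcount⟩ := count_dyadic hs S bad N₀ hbad i₀ hS
  refine Pool.Agent.Y854.GM.windows S (fun m : ℕ => (m : ℝ)) hpos hτ hv hs.le hθ1
    (fun ε hε => ⟨K, fun X hX => ⟨(hcount X hX).1, (hcount X hX).2.trans ?_⟩⟩)
  exact mul_le_mul_of_nonneg_left (Real.rpow_le_rpow_of_exponent_le hX (by linarith)) hK.le

/-- the exponents of a dyadic block -/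
lemma pow_block {C₀ C : ℝ} (hC0 : 0 < C₀) (hC : C₀ < C) {i : ℕ} (hi : C₀ / (C - C₀) ≤ i) {m : ℕ}
    (hm : 2 ^ i < m) : (((2 ^ (i + 1) : ℕ)) : ℝ) ^ C₀ ≤ (m : ℝ) ^ C := by
  have h1 : C₀ ≤ (C - C₀) * i := by
    rw [div_le_iff₀ (by linarith)] at hi
    linarith
  have h2 : ((i : ℝ) + 1) * C₀ ≤ i * C := by linarith
  have h3 : ((2 : ℝ) ^ i) ≤ m := by exact_mod_cast hm.le
  calc (((2 ^ (i + 1) : ℕ)) : ℝ) ^ C₀ = (2 : ℝ) ^ (((i : ℝ) + 1) * C₀) := by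
        push_cast
        rw [← Real.rpow_natCast, ← Real.rpow_mul (by norm_num)]
        push_cast
        rfl
    _ ≤ (2 : ℝ) ^ ((i : ℝ) * C) := Real.rpow_le_rpow_of_exponent_le (by norm_num) h2
    _ = ((2 : ℝ) ^ i) ^ C := by rw [← Real.rpow_natCast, ← Real.rpow_mul (by norm_num)]
    _ ≤ (m : ℝ) ^ C := Real.rpow_le_rpow (by positivity) h3 (by linarith)

end Pool.Agent.V11109.WIN
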